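import Pool.Agent.J4H55.GE.Nvm1

/-!
# Project GE: the norm of the value is a nonzero polynomial in the coordinates
-/

set_option autoImplicit false

open MvPolynomial NumberField

namespace Pool.Agent.J4H55.GE

open Pool.Agent.J4H27.GC Pool.Agent.J4H27.GE Pool.Agent.J4H67.GC Pool.Agent.J4H52.GC

section

variable {K : Type} [Field K] [NumberField K] {m : ℕ}

/-- the exponents of the coordinates -/
noncomputable def sxm {D : Fin m → ℕ} (k : Fin m → ℕ) (n0 : N1 D) (κ : Fin m → ℕ × Bool) :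
    Ix m →₀ ℕ :=
  Finsupp.equivFunOnFinite.symm (fun s => s.1.elim
    (if s.2 = 0 then ∑ i, 4 ^ k i * (n0 i : ℕ) else 0)
    (fun i => if s.2 = 0 then (n0 i : ℕ) else (κ i).1))

/-- the exponents of the square roots -/
noncomputable def sbm (κ : Fin m → ℕ × Bool) : Fin m →₀ ℕ :=
  Finsupp.equivFunOnFinite.symm (fun i => if (κ i).2 then 1 else 0)

variable (a b : Fin 2 → 𝓞 K) (D k : Fin m → ℕ)

/-- a term of the value -/
noncomputable def Tmm (F : NN D → MvPolynomial (Fin 2) (𝓞 K)) (n0 : N1 D)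
    (κ : Fin m → ℕ × Bool) : MvPolynomial (Ix m) (𝓞 K) :=
  rename (nz m) (GB a b D k F (fun _ => true) n0 κ) * monomial (sxm k n0 κ) 1

/-- the value as a polynomial in the square roots -/
noncomputable def GPm (F : NN D → MvPolynomial (Fin 2) (𝓞 K)) :
    MvPolynomial (Fin m) (MvPolynomial (Ix m) (𝓞 K)) :=
  ∑ n0 : N1 D, ∑ κ ∈ KB D, monomial (sbm κ) (Tmm a b D k F n0 κ)

lemma eval₂_Tmm (F : NN D → MvPolynomial (Fin 2) (𝓞 K)) (n0 : N1 D) (κ : Fin m → ℕ × Bool)
    {S : Type} [CommRing S] (g : 𝓞 K →+* S) (x : Ix m → S) :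
    (Tmm a b D k F n0 κ).eval₂ g x = (∏ i, (x (some i, 0) * x (none, 0) ^ (4 ^ k i)) ^ (n0 i : ℕ)) *
      ((GB a b D k F (fun _ => true) n0 κ).eval₂ g
      (fun j => x (none, j)) * ∏ i, x (some i, 1) ^ (κ i).1) := by
  unfold Tmm
  rw [eval₂_mul, eval₂_rename, eval₂_monomial, map_one, one_mul,
    Finsupp.prod_fintype _ _ (fun _ => pow_zero _), Fintype.prod_prod_type, Fintype.prod_option]
  have h1 : sxm k n0 κ (none, 0) = ∑ i, 4 ^ k i * (n0 i : ℕ) := rfl
  have h1' : sxm k n0 κ (none, 1) = 0 := rfl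
  have h2 : ∀ i, sxm k n0 κ (some i, 0) = (n0 i : ℕ) := fun _ => rfl
  have h3 : ∀ i, sxm k n0 κ (some i, 1) = (κ i).1 := fun _ => rfl
  simp only [Fin.prod_univ_two, h1, h1', h2, h3, pow_zero, mul_one, mul_pow,
    Finset.prod_mul_distrib]
  have h4 : ∏ i, (x (none, 0) ^ (4 ^ k i)) ^ (n0 i : ℕ) =
      x (none, 0) ^ ∑ i, 4 ^ k i * (n0 i : ℕ) := by
    rw [Finset.prod_pow_eq_pow_sum Finset.univ (fun i => 4 ^ k i * (n0 i : ℕ)) (x (none, 0)) |>.symm]
    exact Finset.prod_congr rfl fun i _ => (pow_mul _ _ _).symm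
  rw [h4]
  have h5 : (fun j => x (none, j)) = x ∘ nz m := rfl
  rw [← h5]
  ring

variable {a b D k}

lemma GB_degree {C : ℝ}
    (hMM : ∀ (r : Bool) (j : Fin 2) (k D n : ℕ) (κ : ℕ × Bool), n ≤ D →
      (2 * D < κ.1 → mm a b r j k D n κ = 0) ∧
      (∀ s ∈ (mm a b r j k D n κ).support, ∀ j', s j' ≤ if j' = j then 2 * (4 ^ k * D) else 0) ∧
      len (mm a b r j k D n κ) ≤ C ^ (4 ^ k * D))
    {d : ℕ} (hk : ∀ i, D i * 4 ^ k i = d) (F : NN D → MvPolynomial (Fin 2) (𝓞 K))
    (hF : ∀ n j, (F n).degreeOf j ≤ d) (r : Fin m → Bool) (n0 : N1 D)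
    (κ : Fin m → ℕ × Bool) (j' : Fin 2) :
    (GB a b D k F r n0 κ).degreeOf j' ≤ d + m * (2 * d) := by
  classical
  have hkk : ∀ i, 4 ^ k i * D i = d := fun i => by rw [mul_comm, hk i]
  unfold GB
  refine (degreeOf_sum_le _ _ _).trans (Finset.sup_le (fun n _ => ?_))
  refine (degreeOf_mul_le _ _ _).trans (Nat.add_le_add (hF _ j') ?_)
  refine (degreeOf_prod_le _ _ _).trans ?_
  refine (Finset.sum_le_sum (g := fun _ => 2 * d) (fun i _ => ?_)).trans (le_of_eq (by simp))
  rw [degreeOf_le_iff]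
  intro s hs
  have := (hMM (r i) 1 (k i) (D i) (n i) (κ i) (Fin.is_le _)).2.1 s hs j'
  rw [hkk i] at this
  refine this.trans ?_
  split_ifs <;> omega

lemma GB_len {C : ℝ} (hC : 1 ≤ C)
    (hMM : ∀ (r : Bool) (j : Fin 2) (k D n : ℕ) (κ : ℕ × Bool), n ≤ D →
      (2 * D < κ.1 → mm a b r j k D n κ = 0) ∧
      (∀ s ∈ (mm a b r j k D n κ).support, ∀ j', s j' ≤ if j' = j then 2 * (4 ^ k * D) else 0) ∧
      len (mm a b r j k D n κ) ≤ C ^ (4 ^ k * D))
    {d : ℕ} (hk : ∀ i, D i * 4 ^ k i = d) (F : NN D → MvPolynomial (Fin 2) (𝓞 K)) {Λ : ℝ}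
    (hF : ∀ n, len (F n) ≤ Λ) (hΛ : 0 ≤ Λ) (r : Fin m → Bool) (n0 : N1 D)
    (κ : Fin m → ℕ × Bool) :
    len (GB a b D k F r n0 κ) ≤ Fintype.card (N1 D) * (Λ * (C ^ d) ^ m) := by
  classical
  have hkk : ∀ i, 4 ^ k i * D i = d := fun i => by rw [mul_comm, hk i]
  have hCd : 0 ≤ C ^ d := by positivity
  unfold GB
  refine (len_sum _ _).trans ?_
  refine (Finset.sum_le_sum (g := fun _ => Λ * (C ^ d) ^ m) (fun n _ => ?_)).trans
    (le_of_eq (by rw [Finset.sum_const, Finset.card_univ, nsmul_eq_mul]))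
  refine (len_mul _ _).trans ?_
  refine mul_le_mul (hF _) ?_ (len_nonneg _) hΛ
  refine (len_prod _ _).trans ?_
  refine (Finset.prod_le_prod (g := fun _ => C ^ d) (fun i _ => len_nonneg _)
    (fun i _ => ?_)).trans (le_of_eq (by simp))
  have := (hMM (r i) 1 (k i) (D i) (n i) (κ i) (Fin.is_le _)).2.2
  rwa [hkk i] at this

end

theorem t_NVM (hN : S_NORM) (hG : S_GEN) (hM : S_MMF) (hV : S_VAM) : S_NVM := by
  classical
  intro K _ _ a b m hab
  obtain ⟨C, hC, hMM⟩ := hM K a b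
  let f : Fin m → MvPolynomial (Ix m) (𝓞 K) := fun i =>
    (X (some i, 1) ^ 3 + MvPolynomial.C (a 1) * X (some i, 1) + MvPolynomial.C (b 1)) *
    (X (none, 1) ^ 3 + MvPolynomial.C (a 1) * X (none, 1) + MvPolynomial.C (b 1))
  obtain ⟨c, hc, hNN⟩ := hN K (Ix m) (Fin m) f
  obtain ⟨B, hB⟩ := exists_nat_ge ((32 * C) ^ m)
  have hB1 : 1 ≤ B := by
    have h1 : (1 : ℝ) ≤ (32 * C) ^ m := one_le_pow₀ (by linarith)
    exact_mod_cast h1.trans hB
  refine ⟨c * (3 * m + 3) * B, by positivity, ?_⟩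
  intro D k d hd hD hk F Λ hΛ hF hFd hFl
  have hDd : ∀ i, D i ≤ d := by
    intro i
    calc D i = D i * 1 := (mul_one _).symm
      _ ≤ D i * 4 ^ k i := Nat.mul_le_mul_left _ (Nat.one_le_pow _ _ (by norm_num))
      _ = d := hk i
  -- the bounds
  let δ : Ix m → ℕ := fun s => s.1.elim (d + m * (2 * d) + m * d) (fun i => 2 * D i)
  have hδ : ∀ (n0 : N1 D), ∀ κ ∈ KB D, ∀ v, (Tmm a b D k F n0 κ).degreeOf v ≤ δ v := by
    intro n0 κ hκ v
    unfold Tmm
    refine (degreeOf_mul_le _ _ _).trans ?_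
    rcases v with ⟨_ | i, j⟩
    · have h1 := degreeOf_monomial_le (sxm k n0 κ) (1 : 𝓞 K) ((none, j) : Ix m)
      have h2 : sxm k n0 κ (none, j) ≤ m * d := by
        have h4 : sxm k n0 κ (none, j) = if j = 0 then ∑ i, 4 ^ k i * (n0 i : ℕ) else 0 := rfl
        rw [h4]
        split_ifs
        · calc ∑ i, 4 ^ k i * (n0 i : ℕ) ≤ ∑ _i : Fin m, d := by
                refine Finset.sum_le_sum fun i _ => ?_
                rw [← hk i, mul_comm (D i)]
                exact Nat.mul_le_mul_left _ (Fin.is_le _)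
            _ = m * d := by simp
        · exact Nat.zero_le _
      have h3 : (rename (nz m) (GB a b D k F (fun _ => true) n0 κ)).degreeOf ((none, j) : Ix m) ≤
          d + m * (2 * d) := by
        rw [show ((none, j) : Ix m) = nz m j from rfl, degreeOf_rename_of_injective (nz_inj m)]
        exact GB_degree hMM hk F hFd _ n0 κ j
      simp only [δ, Option.elim_none]
      omega
    · have h1 := degreeOf_monomial_le (sxm k n0 κ) (1 : 𝓞 K) ((some i, j) : Ix m)
      have h2 : sxm k n0 κ (some i, j) = if j = 0 then (n0 i : ℕ) else (κ i).1 := rfl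
      have h3 : (rename (nz m) (GB a b D k F (fun _ => true) n0 κ)).degreeOf ((some i, j) : Ix m) ≤
          0 := by
        rw [degreeOf_le_iff]
        intro s hs
        by_contra hne
        obtain ⟨u, hu, -⟩ := coeff_rename_ne_zero _ _ _ (mem_support_iff.1 hs)
        apply hne
        rw [← hu, Finsupp.mapDomain_of_notMem_range]
        rintro ⟨j', hj'⟩
        simp [nz] at hj'
      have h4 : (κ i).1 ≤ 2 * D i := by
        unfold KB at hκ
        rw [Fintype.mem_piFinset] at hκ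
        have h6 := hκ i
        rw [Finset.mem_product, Finset.mem_range] at h6
        omega
      have h5 : (n0 i : ℕ) ≤ D i := Fin.is_le _
      simp only [δ, Option.elim_some]
      split_ifs at h2 <;> omega
  have hcardN : (Fintype.card (N1 D) : ℝ) ≤ ((2 : ℝ) ^ d) ^ m := by
    have h3 : Fintype.card (N1 D) = ∏ i, (D i + 1) := by
      simp [N1, Fintype.card_pi]
    rw [h3]
    push_cast
    calc (∏ i, ((D i : ℝ) + 1)) ≤ ∏ _i : Fin m, ((2 : ℝ) ^ d) := by
          gcongr with i _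
          have h1 : D i + 1 ≤ 2 ^ d := by
            have := Nat.lt_two_pow_self (n := d)
            have := hDd i
            omega
          exact_mod_cast h1
      _ = ((2 : ℝ) ^ d) ^ m := by
          rw [Finset.prod_const, Finset.card_univ, Fintype.card_fin]
  have hcardK : ((KB D).card : ℝ) ≤ ((8 : ℝ) ^ d) ^ m := by
    have h3 : (KB D).card = ∏ i, ((2 * D i + 1) * 2) := by
      unfold KB
      rw [Fintype.card_piFinset]
      refine Finset.prod_congr rfl (fun i _ => ?_)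
      simp
    rw [h3]
    push_cast
    calc (∏ i, ((2 * (D i : ℝ) + 1) * 2)) ≤ ∏ _i : Fin m, ((8 : ℝ) ^ d) := by
          gcongr with i _
          have h1 : (2 * D i + 1) * 2 ≤ 8 ^ d := by
            have h4 := Nat.lt_two_pow_self (n := d)
            have h5 := hDd i
            have h6 : 4 ≤ 4 ^ d := by
              calc 4 = 4 ^ 1 := by norm_num
                _ ≤ 4 ^ d := Nat.pow_le_pow_right (by norm_num) hd
            calc (2 * D i + 1) * 2 ≤ 2 ^ d * 4 := by omega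
              _ ≤ 2 ^ d * 4 ^ d := Nat.mul_le_mul_left _ h6
              _ = 8 ^ d := by rw [← mul_pow]; norm_num
          exact_mod_cast h1
      _ = ((8 : ℝ) ^ d) ^ m := by
          rw [Finset.prod_const, Finset.card_univ, Fintype.card_fin]
  have hBd : (1 : ℝ) ≤ (B : ℝ) ^ d := one_le_pow₀ (by exact_mod_cast hB1)
  have hC0 : 0 ≤ C := by linarith
  have hΛ0 : 0 ≤ Λ := by linarith
  have hlenT : ∀ n0 κ, len (Tmm a b D k F n0 κ) ≤
      ((2 : ℝ) ^ d) ^ m * (Λ * (C ^ d) ^ m) := by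
    intro n0 κ
    unfold Tmm
    refine (len_mul _ _).trans ?_
    rw [len_monomial, hs_one, mul_one]
    refine (len_rename _ _).trans ((GB_len hC hMM hk F hFl hΛ0 _ n0 κ).trans ?_)
    gcongr
  have hcoeff : ∀ s, coeff s (GPm a b D k F) =
      ∑ n0 : N1 D, ∑ κ ∈ KB D, if sbm κ = s then Tmm a b D k F n0 κ else 0 := by
    intro s
    unfold GPm
    rw [coeff_sum]
    refine Finset.sum_congr rfl (fun n0 _ => ?_)
    rw [coeff_sum]
    refine Finset.sum_congr rfl (fun κ _ => ?_)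
    rw [coeff_monomial]
  obtain ⟨P, hP1, hP2, hP3⟩ := hNN (GPm a b D k F) δ ((B : ℝ) ^ d * Λ)
    (by nlinarith) (by
      intro s hs t
      rw [mem_support_iff, hcoeff] at hs
      obtain ⟨n0, _, hn0⟩ := Finset.exists_ne_zero_of_sum_ne_zero hs
      obtain ⟨κ, _, hκ⟩ := Finset.exists_ne_zero_of_sum_ne_zero hn0
      have h1 : sbm κ = s := by
        by_contra hne
        rw [if_neg hne] at hκ
        exact hκ rfl
      rw [← h1]
      have h2 : sbm κ t = if (κ t).2 then 1 else 0 := rfl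
      rw [h2]
      split_ifs <;> omega) (by
      intro s v
      rw [hcoeff]
      refine (degreeOf_sum_le _ _ _).trans (Finset.sup_le (fun n0 _ => ?_))
      refine (degreeOf_sum_le _ _ _).trans (Finset.sup_le (fun κ hκ => ?_))
      split_ifs
      · exact hδ n0 κ hκ v
      · simp) (by
      intro s
      rw [hcoeff]
      have hX : ∀ n0 : N1 D, len (∑ κ ∈ KB D, if sbm κ = s then Tmm a b D k F n0 κ else 0) ≤
          (KB D).card * (((2 : ℝ) ^ d) ^ m * (Λ * (C ^ d) ^ m)) := by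
        intro n0
        refine (len_sum _ _).trans ?_
        refine (Finset.sum_le_sum (g := fun _ => ((2 : ℝ) ^ d) ^ m *
          (Λ * (C ^ d) ^ m)) (fun κ _ => ?_)).trans ?_
        · split_ifs
          · exact hlenT n0 κ
          · rw [len_zero]
            positivity
        · rw [Finset.sum_const, nsmul_eq_mul]
      refine (len_sum _ _).trans ((Finset.sum_le_sum (fun n0 _ => hX n0)).trans ?_)
      rw [Finset.sum_const, nsmul_eq_mul, Finset.card_univ]
      calc (Fintype.card (N1 D) : ℝ) * ((KB D).card * (((2 : ℝ) ^ d) ^ m * (Λ * (C ^ d) ^ m)))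
          ≤ ((2 : ℝ) ^ d) ^ m * (((8 : ℝ) ^ d) ^ m *
            (((2 : ℝ) ^ d) ^ m * (Λ * (C ^ d) ^ m))) := by
            gcongr
        _ = ((32 * C) ^ m) ^ d * Λ := by
            have e1 : ((8 : ℝ) ^ d) ^ m = (8 ^ m) ^ d := by
              rw [← pow_mul, ← pow_mul, mul_comm]
            have e2 : ((2 : ℝ) ^ d) ^ m = (2 ^ m) ^ d := by
              rw [← pow_mul, ← pow_mul, mul_comm]
            have e3 : (C ^ d) ^ m = (C ^ m) ^ d := by
              rw [← pow_mul, ← pow_mul, mul_comm]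
            have e4 : ((32 : ℝ) * C) ^ m = 2 ^ m * 8 ^ m * 2 ^ m * C ^ m := by
              rw [← mul_pow, ← mul_pow, ← mul_pow]
              norm_num
            rw [e1, e2, e3, e4, mul_pow, mul_pow, mul_pow]
            ring
        _ ≤ (B : ℝ) ^ d * Λ := by gcongr)
  have hid : ∀ (S : Type) [CommRing S] (g : 𝓞 K →+* S) (x h : Ix m → S), OnM a b g x h →
      P.eval₂ g x = ∏ ε : Fin m → Bool, Vm a b D k g x (sg1 h ε) (fun _ => true) F := by
    intro S _ g x h hOn
    have h1 := hP3 S (eval₂Hom g x) (fun t => h (some t, 1) * h (none, 1)) (by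
      intro t
      simp only [f, coe_eval₂Hom, eval₂_mul, eval₂_add, eval₂_pow, eval₂_X, eval₂_C]
      have e1 := hOn (some t)
      have e2 := hOn none
      rw [mul_pow, e1, e2])
    rw [coe_eval₂Hom] at h1
    rw [h1]
    refine Finset.prod_congr rfl (fun ε _ => ?_)
    have hOn' : OnM a b g x (sg1 h ε) := by
      rintro (_ | i)
      · exact hOn none
      · have := hOn (some i)
        simp only [sg1]
        split_ifs
        · exact this
        · rw [neg_sq]
          exact this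
    have h2 := (hV K a b m D k S g x (sg1 h ε) hOn' (fun _ => true) F).1
    rw [h2]
    unfold GPm
    rw [eval₂_sum]
    refine Finset.sum_congr rfl (fun n0 _ => ?_)
    rw [eval₂_sum, Finset.mul_sum]
    refine Finset.sum_congr rfl (fun κ _ => ?_)
    rw [eval₂_monomial, coe_eval₂Hom, eval₂_Tmm, Finsupp.prod_fintype _ _ (fun _ => pow_zero _),
      mul_assoc, mul_assoc]
    congr 2
    rw [← Finset.prod_mul_distrib]
    refine Finset.prod_congr rfl (fun i _ => ?_)
    congr 1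
    have h3 : sbm κ i = if (κ i).2 then 1 else 0 := rfl
    rw [h3]
    have h4 : sg1 h ε (none, 1) = h (none, 1) := rfl
    have h5 : sg1 h ε (some i, 1) = if ε i then h (some i, 1) else -h (some i, 1) := rfl
    rw [h4, h5]
    cases hε : ε i <;> cases hκ : (κ i).2 <;> simp
  refine ⟨P, ?_, ?_, ?_, ?_, ?_⟩
  · intro hP0
    obtain ⟨Ω, _, g, x, h, hOn, hne⟩ := exists_pt a b D k hG F hF
    have h1 := hid Ω g x h hOn
    rw [hP0, eval₂_zero] at h1
    exact Finset.prod_ne_zero_iff.2 (fun ε _ => hne ε) h1.symm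
  · intro j
    refine (hP1 (none, j)).trans ?_
    simp only [δ, Option.elim_none]
    calc c * (d + m * (2 * d) + m * d + 1) ≤ c * ((3 * m + 3) * d) := by
          refine Nat.mul_le_mul_left _ ?_
          nlinarith
      _ = c * (3 * m + 3) * 1 * d := by ring
      _ ≤ c * (3 * m + 3) * B * d := by gcongr
  · intro i j
    refine (hP1 (some i, j)).trans ?_
    simp only [δ, Option.elim_some]
    have := hD i
    calc c * (2 * D i + 1) ≤ c * ((3 * m + 3) * D i) := by
          refine Nat.mul_le_mul_left _ ?_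
          nlinarith
      _ = c * (3 * m + 3) * 1 * D i := by ring
      _ ≤ c * (3 * m + 3) * B * D i := by gcongr
  · refine hP2.trans ?_
    have h1 : (1 : ℝ) ≤ c := by exact_mod_cast hc
    have h2 : c * B ≤ c * (3 * m + 3) * B := by
      calc c * B = c * 1 * B := by ring
        _ ≤ c * (3 * m + 3) * B := by gcongr; omega
    have h3 : ((c : ℝ) * ((B : ℝ) ^ d * Λ)) ≤ (((c * (3 * m + 3) * B : ℕ) : ℝ) ^ d * Λ) := by
      calc (c : ℝ) * ((B : ℝ) ^ d * Λ) = (c : ℝ) ^ 1 * (B : ℝ) ^ d * Λ := by ring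
        _ ≤ (c : ℝ) ^ d * (B : ℝ) ^ d * Λ := by gcongr
        _ = ((c * B : ℕ) : ℝ) ^ d * Λ := by push_cast; rw [mul_pow]
        _ ≤ (((c * (3 * m + 3) * B : ℕ) : ℝ) ^ d * Λ) := by gcongr
    have h4 : c ≤ c * (3 * m + 3) * B := by
      calc c = c * 1 * 1 := by ring
        _ ≤ c * (3 * m + 3) * B := by gcongr; omega
    have h5 : (1 : ℝ) ≤ (((c * (3 * m + 3) * B : ℕ) : ℝ) ^ d * Λ) := by
      have h6 : (1 : ℝ) ≤ ((c * (3 * m + 3) * B : ℕ) : ℝ) := by
        exact_mod_cast (show 1 ≤ c * (3 * m + 3) * B from le_trans hc h4)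
      calc (1 : ℝ) = 1 * 1 := by ring
        _ ≤ ((c * (3 * m + 3) * B : ℕ) : ℝ) ^ d * Λ := by
          gcongr
          exact one_le_pow₀ h6
    calc ((c : ℝ) * ((B : ℝ) ^ d * Λ)) ^ c ≤ (((c * (3 * m + 3) * B : ℕ) : ℝ) ^ d * Λ) ^ c := by
          gcongr
      _ ≤ (((c * (3 * m + 3) * B : ℕ) : ℝ) ^ d * Λ) ^ (c * (3 * m + 3) * B) :=
          pow_le_pow_right₀ h5 h4
  · intro S _ g x h hOn
    rw [hid S g x h hOn]
    refine Finset.prod_congr rfl (fun ε _ => ?_)
    congr 1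

end Pool.Agent.J4H55.GE
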