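import Pool.Agent.J4H67.GC.Zl
import Pool.Agent.J4H27.GE.Defs3

set_option autoImplicit false

/-! Project GE: the zero lemma with constants which are linear in `B`. -/

open MvPolynomial Height

namespace Pool.Agent.J4H55.GE

open Pool.Agent.J4H27.GC Pool.Agent.J4H27.GE Pool.Agent.J4H67.GC

/-- the zero lemma with constants linear in `B` -/
def ZCU (K : Type) [Field K] [NumberField K] (σ : Type) [Fintype σ] [DecidableEq σ] (c : ℝ) : Prop :=
  ∃ (R : ℕ) (Δ C₂ : ℝ), 1 ≤ C₂ ∧ ∀ B : ℝ, 0 ≤ B → ∀ (w : σ → ℕ) (a : σ → K),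
  (∀ i, 0 < w i) → (∀ i j, w i < w j → R * w i ≤ w j) →
  (∀ i j k, w i = w j → w j = w k → i = j ∨ j = k ∨ i = k) →
  (∀ i, C₂ * (B + 1) * w i ≤ logHeight₁ (a i)) →
  ∀ (P : MvPolynomial σ K) (t : ℕ), P ≠ 0 → 0 < t → Ow w a P t → c * Nd w P ≤ t →
    hp P ≤ B * t → Cn w a Δ (C₂ * (B + 1))

theorem zlu_fin (hGEL : S_GEL) (hRES : S_RES) (K : Type) [Field K] [NumberField K] :
    ∀ (n : ℕ) (c : ℝ), 0 < c → ZCU K (Fin n) c := by
  intro n
  induction n with
  | zero =>
    intro c _
    refine ⟨0, 0, 1, le_rfl, fun B _ w a _ _ _ _ P t hP ht hO _ _ => ?_⟩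
    exfalso
    obtain ⟨s, hs⟩ := Finset.nonempty_iff_ne_empty.2 (support_eq_empty.not.2 (tr_ne_zero a hP))
    have := hO s hs
    simp at this
    omega
  | succ n ih =>
    intro c hc
    obtain ⟨γ₁, hγ₁, hG⟩ := hGEL K (n + 1)
    obtain ⟨γ₂, hγ₂, hR⟩ := hRES K n
    have hmin : 0 < min 1 (c / 8) := lt_min one_pos (by positivity)
    obtain ⟨R', Δ', C', hC', hrec'⟩ := ih (c * (min 1 (c / 8) / 4) / 4) (by positivity)
    set k₁ : ℝ := 3 + 2 * (γ₁ / c) with hk₁
    set k₂ : ℝ := (2 * k₁ + (γ₂ + totalWeight K) * (2 / c)) / (min 1 (c / 8) / 4) + 1 with hk₂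
    have hk₁0 : 0 ≤ k₁ := by positivity
    have hk₂0 : 0 ≤ k₂ := by positivity
    have hC'k : 0 ≤ C' * k₂ := mul_nonneg (by linarith) hk₂0
    refine ⟨max R' ⌈4 / c⌉₊, max Δ' (4 / c), C' * k₂ + 2 * k₁ + 1, by linarith, ?_⟩
    intro B hB w a hw hgap htwo hH P t hP ht hO hN hh
    set B₂ := 2 * (B + γ₁ / c) + 1 with hB₂
    have hB₂0 : 0 < B₂ := by positivity
    set Bn := (2 * B₂ + (γ₂ + totalWeight K) * (2 / c)) / (min 1 (c / 8) / 4) with hBn
    have hBn0 : 0 ≤ Bn := by positivity
    have hrec := hrec' Bn hBn0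
    have b1 : B₂ ≤ k₁ * (B + 1) := by
      have h1 : 0 ≤ γ₁ / c := by positivity
      have h2 : 0 ≤ γ₁ / c * B := by positivity
      rw [hB₂, hk₁]
      nlinarith
    have b2 : Bn + 1 ≤ k₂ * (B + 1) := by
      have h1 : 0 ≤ (γ₂ + totalWeight K) * (2 / c) := by positivity
      have h2 : 2 * B₂ + (γ₂ + totalWeight K) * (2 / c) ≤
          (2 * k₁ + (γ₂ + totalWeight K) * (2 / c)) * (B + 1) := by
        nlinarith [mul_nonneg h1 hB]
      have h3 : Bn ≤ (2 * k₁ + (γ₂ + totalWeight K) * (2 / c)) * (B + 1) / (min 1 (c / 8) / 4) := by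
        rw [hBn]
        exact div_le_div_of_nonneg_right h2 (by positivity)
      rw [hk₂, add_mul, one_mul]
      have h4 : (2 * k₁ + (γ₂ + totalWeight K) * (2 / c)) * (B + 1) / (min 1 (c / 8) / 4) =
          (2 * k₁ + (γ₂ + totalWeight K) * (2 / c)) / (min 1 (c / 8) / 4) * (B + 1) := by ring
      rw [← h4]
      linarith
    have g1 : C' * (Bn + 1) ≤ (C' * k₂ + 2 * k₁ + 1) * (B + 1) := by
      have h1 : C' * (Bn + 1) ≤ C' * (k₂ * (B + 1)) := mul_le_mul_of_nonneg_left b2 (by linarith)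
      have h2 : 0 ≤ (2 * k₁ + 1) * (B + 1) := by positivity
      nlinarith
    have g2 : 2 * B₂ ≤ (C' * k₂ + 2 * k₁ + 1) * (B + 1) := by
      have h2 : 0 ≤ (C' * k₂ + 1) * (B + 1) := by positivity
      nlinarith
    have g3 : B₂ + 1 ≤ (C' * k₂ + 2 * k₁ + 1) * (B + 1) := by
      have h2 : 0 ≤ (C' * k₂ + k₁) * (B + 1) := by positivity
      nlinarith
    obtain ⟨Q, hQ, h0, hNQ, hhQ⟩ := exists_factor hγ₁ hG hc hB hw hP ht hO hN hh
    rw [← hB₂] at hhQ
    set e := on w a Q with he
    have hepos : (0 : ℝ) < e := by exact_mod_cast h0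
    have hev : eval a Q = 0 := eval_eq_zero_of_on h0
    have hvne : Q.vars.Nonempty := by
      rw [Finset.nonempty_iff_ne_empty]
      intro hv
      rw [vars_eq_empty_iff_eq_C] at hv
      rw [hv] at hev
      rw [eval_C] at hev
      rw [hev, C_0] at hv
      exact hQ.ne_zero hv
    obtain ⟨l, hl, hlmax⟩ := Finset.exists_max_image Q.vars w hvne
    have hpos : ∀ k ∈ Q.vars, 0 < Q.degreeOf k := fun k hk =>
      Nat.pos_of_ne_zero (mem_vars_iff_degreeOf_ne_zero.1 hk)
    by_cases hA : ∀ k ∈ Q.vars, k = l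
    · -- one variable
      exfalso
      obtain ⟨r, hr, hQe⟩ := irr_single hQ (l := l) (fun k hk => by rw [Finset.mem_singleton]; exact hA k hk) hev
      have hXne : (X l - C (a l) : MvPolynomial (Fin (n + 1)) K) ≠ 0 := by
        intro h; rw [hQe, h, mul_zero] at hQ; exact not_irreducible_zero hQ
      have h1 : e ≤ w l := by
        have : e = on w a (X l - C (a l)) := by
          rw [he, hQe, on_mul w a (by simpa using hr) hXne, on_C w a hr, zero_add]
        rw [this]
        exact on_X_sub w a l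
      have h2 : logHeight₁ (a l) ≤ hp Q := by
        rw [hQe, hp_C_mul hr]
        exact le_hp_X_sub l (a l)
      have h3 := hH l
      have h4 : (B₂ + 1) * (w l : ℝ) ≤ (C' * k₂ + 2 * k₁ + 1) * (B + 1) * w l :=
        mul_le_mul_of_nonneg_right g3 (by positivity)
      have h5 : (e : ℝ) ≤ w l := by exact_mod_cast h1
      have h6 : B₂ * (e : ℝ) ≤ B₂ * w l := mul_le_mul_of_nonneg_left h5 hB₂0.le
      have h7 : (0 : ℝ) < w l := by exact_mod_cast hw l
      linarith
    · push Not at hA
      obtain ⟨k₀, hk₀, hk₀l⟩ := hA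
      by_cases hBc : ∃ k ∈ Q.vars, 2 * w k ≤ e
      · obtain ⟨k, hk, hwk⟩ := hBc
        obtain ⟨f, R, T, hf, hR0, hT, hOR, hNR, hhR⟩ := recur hγ₂ hR hc hB₂0.le hw hQ h0 hNQ hhQ (hpos l hl)
          (hpos k hk) hwk
        have h1 := hrec (w ∘ f) (a ∘ f) (fun i => hw (f i)) (fun i j hij => by
            refine le_trans ?_ (hgap (f i) (f j) hij)
            exact Nat.mul_le_mul_right _ (le_max_left _ _))
          (fun i j k hij hjk => by
            rcases htwo (f i) (f j) (f k) hij hjk with h | h | h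
            · exact Or.inl (hf h)
            · exact Or.inr (Or.inl (hf h))
            · exact Or.inr (Or.inr (hf h)))
          (fun i => by
            refine le_trans ?_ (hH (f i))
            exact mul_le_mul_of_nonneg_right g1 (by positivity)) R T hR0 hT hOR hNR hhR
        exact Cn_mono (Cn_rename hf h1) (le_max_left _ _) g1
      · push Not at hBc
        have hdl := hpos l hl
        have hwl : (w l : ℝ) ≤ 2 / c * e := by
          have h1 := deg_one_le_Nd w Q l
          have h2 : w l ≤ w l * Q.degreeOf l := Nat.le_mul_of_pos_right _ hdl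
          have h3 : (w l : ℝ) ≤ Nd w Q := by exact_mod_cast h2.trans h1
          refine h3.trans ?_
          rw [div_mul_eq_mul_div, le_div_iff₀ hc, mul_comm]
          linarith
        have hweq : ∀ k ∈ Q.vars, w k = w l := by
          intro k hk
          by_contra hne
          have hlt : w k < w l := lt_of_le_of_ne (hlmax k hk) hne
          have h1 := hgap k l hlt
          have h2 : ((⌈4 / c⌉₊ * w k : ℕ) : ℝ) ≤ w l := by
            have : ⌈4 / c⌉₊ * w k ≤ w l := le_trans (Nat.mul_le_mul_right _ (le_max_right _ _)) h1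
            exact_mod_cast this
          have h3 : 4 / c * (w k : ℝ) ≤ w l := by
            refine le_trans ?_ h2
            push_cast
            exact mul_le_mul_of_nonneg_right (Nat.le_ceil _) (by positivity)
          have h4 : (e : ℝ) < 2 * w k := by exact_mod_cast hBc k hk
          have h5 : 2 / c * (e : ℝ) < 2 / c * (2 * w k) := mul_lt_mul_of_pos_left h4 (by positivity)
          have h6 : 2 / c * (2 * (w k : ℝ)) = 4 / c * w k := by ring
          linarith
        have hsub : Q.vars ⊆ {l, k₀} := by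
          intro k hk
          rw [Finset.mem_insert, Finset.mem_singleton]
          have h1 := hweq k hk
          have h2 := hweq k₀ hk₀
          rcases htwo k l k₀ h1 h2.symm with h | h | h
          · exact Or.inl h
          · exact absurd h.symm hk₀l
          · exact Or.inr h
        have hwl0 : (0 : ℝ) < w l := by exact_mod_cast hw l
        have hel : (e : ℝ) < 2 * w l := by exact_mod_cast hBc l hl
        refine ⟨l, k₀, Q, Ne.symm hk₀l, (hweq k₀ hk₀).symm, hQ, hsub, hdl, hpos k₀ hk₀, ?_, hev, ?_⟩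
        · refine le_trans ?_ (le_max_right _ _)
          have h1 := deg_two_le_Nd w Q (Ne.symm hk₀l)
          rw [hweq k₀ hk₀] at h1
          have h2 : (w l : ℝ) * (Q.degreeOf l + Q.degreeOf k₀) ≤ Nd w Q := by
            have : w l * (Q.degreeOf l + Q.degreeOf k₀) ≤ Nd w Q := by rw [mul_add]; exact h1
            exact_mod_cast this
          have h3 : c / 2 * ((w l : ℝ) * (Q.degreeOf l + Q.degreeOf k₀)) ≤ 2 * w l := by
            have := mul_le_mul_of_nonneg_left h2 (by positivity : 0 ≤ c / 2)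
            linarith
          rw [le_div_iff₀ hc]
          have h4 : (w l : ℝ) * (((Q.degreeOf l : ℝ) + Q.degreeOf k₀) * c) ≤ w l * 4 := by linarith
          exact le_of_mul_le_mul_left h4 hwl0
        · refine hhQ.trans ?_
          have h1 : B₂ * (e : ℝ) ≤ B₂ * (2 * w l) := mul_le_mul_of_nonneg_left hel.le hB₂0.le
          refine h1.trans ?_
          have h2 : (2 * B₂) * (w l : ℝ) ≤ (C' * k₂ + 2 * k₁ + 1) * (B + 1) * w l :=
            mul_le_mul_of_nonneg_right g2 hwl0.le
          linarith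

theorem t_ZLU (hGEL : S_GEL) (hRES : S_RES) : S_ZLU := by
  intro K _ _ σ _ _ c hc
  obtain ⟨n, ⟨s⟩⟩ : ∃ n, Nonempty (σ ≃ Fin n) := ⟨_, ⟨Fintype.equivFin σ⟩⟩
  obtain ⟨R, Δ, C₂, hC₂, hz'⟩ := zlu_fin hGEL hRES K n c hc
  refine ⟨R, Δ, C₂, hC₂, fun B hB w a hw hgap htwo hH P t hP ht hO hN hh => ?_⟩
  have hz := hz' B hB
  have hww : (w ∘ s.symm) ∘ s = w := by funext i; simp
  have haa : (a ∘ s.symm) ∘ s = a := by funext i; simp
  have h1 := hz (w ∘ s.symm) (a ∘ s.symm) (fun i => hw _) (fun i j hij => hgap _ _ hij)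
    (fun i j k hij hjk => by
      rcases htwo (s.symm i) (s.symm j) (s.symm k) hij hjk with h | h | h
      · exact Or.inl (s.symm.injective h)
      · exact Or.inr (Or.inl (s.symm.injective h))
      · exact Or.inr (Or.inr (s.symm.injective h)))
    (fun i => hH _) (rename s P) t (by
      intro h
      exact hP (rename_injective (R := K) s s.injective (by rw [h, map_zero]))) ht
    ((Ow_rename s _ _ P t).2 (by rw [hww, haa]; exact hO)) (by rw [Nd_rename, hww]; exact hN)
    (by rw [hp_rename s.injective]; exact hh)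
  exact Cn_rename s.symm.injective h1

end Pool.Agent.J4H55.GE
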