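import Pool.Agent.J4H27.GE.Defs
import Pool.Agent.J4H52.GC.Nvn

/-!
# Project GE: a point where the values for all signs are not zero
-/

set_option autoImplicit false

open MvPolynomial NumberField

namespace Pool.Agent.J4H55.GE

open Pool.Agent.J4H27.GC Pool.Agent.J4H27.GE Pool.Agent.J4H67.GC Pool.Agent.J4H52.GC

/-- change of the signs -/
def sg1 {m : ℕ} {S : Type} [CommRing S] (h : Ix m → S) (ε : Fin m → Bool) : Ix m → S
  | (none, j) => h (none, j)
  | (some i, j) => if ε i then h (some i, j) else -h (some i, j)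

variable {K : Type} [Field K] [NumberField K] (a b : Fin 2 → 𝓞 K) {m : ℕ} (D k : Fin m → ℕ)

theorem exists_pt (hG : S_GEN) (F : NN D → MvPolynomial (Fin 2) (𝓞 K)) (hF : F ≠ 0) :
    ∃ (Ω : Type) (_ : Field Ω) (g : 𝓞 K →+* Ω) (x h : Ix m → Ω), OnM a b g x h ∧
      ∀ ε : Fin m → Bool, Vm a b D k g x (sg1 h ε) (fun _ => true) F ≠ 0 := by
  classical
  obtain ⟨n₀, hn₀⟩ := Function.ne_iff.1 hF
  have hX : (X 0 : MvPolynomial (Fin 2) (𝓞 K)) ≠ 0 := X_ne_zero 0
  obtain ⟨x0, h1', h2, h3⟩ := base_point a b k (F n₀ * X 0) (mul_ne_zero hn₀ hX)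
  have h1 : eval x0 (F n₀) ≠ 0 := fun h => h1' (by rw [map_mul, h, zero_mul])
  have hz : x0 0 ≠ 0 := fun h => h1' (by rw [map_mul, eval_X, h, mul_zero])
  let Ω := AlgebraicClosure K
  let g : 𝓞 K →+* Ω := (algebraMap K Ω).comp (algebraMap (𝓞 K) K)
  have hg : Function.Injective g :=
    (algebraMap K Ω).injective.comp RingOfIntegers.coe_injective
  have hg0 : ∀ x, x ≠ 0 → g x ≠ 0 := fun x hx => (map_ne_zero_iff g hg).2 hx
  obtain ⟨h0, hh0⟩ : ∃ h0 : Ω, h0 ^ 2 = g (x0 1) ^ 3 + g (a 1) * g (x0 1) + g (b 1) :=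
    IsAlgClosed.exists_pow_nat_eq _ (by norm_num)
  let p : Fin m → Ω := fun i => (phi (a 1) (b 1) (k i)).eval₂ g (g (x0 1))
  let q : Fin m → Ω := fun i => (psi (a 1) (b 1) (k i)).eval₂ g (g (x0 1))
  let o : Fin m → Ω := fun i => (om (a 1) (b 1) (k i)).eval₂ g (g (x0 1))
  have hq : ∀ t, q t ≠ 0 := by
    intro t
    simp only [q]
    rw [Polynomial.eval₂_at_apply]
    exact hg0 _ (h3 _ _).1
  have ho : ∀ t, o t ≠ 0 := by
    intro t
    simp only [o]
    rw [Polynomial.eval₂_at_apply]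
    exact hg0 _ (h3 _ _).2
  have hf : g (x0 1) ^ 3 + g (a 1) * g (x0 1) + g (b 1) ≠ 0 := by
    have := hg0 _ (h2 1)
    rwa [map_add, map_add, map_mul, map_pow] at this
  have hoq : ∀ t, o t ^ 2 * (g (x0 1) ^ 3 + g (a 1) * g (x0 1) + g (b 1)) =
      q t * (p t ^ 3 + g (a 1) * p t * q t ^ 2 + g (b 1) * q t ^ 3) := fun t =>
    om_ev (a 1) (b 1) g (g (x0 1)) (k t)
  let c : NN D → Ω := fun n => (F n).eval₂ g (fun j => g (x0 j))
  have hc : c n₀ ≠ 0 := by
    have h4 : c n₀ = g (eval x0 (F n₀)) := by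
      simp only [c]
      rw [show (fun j => g (x0 j)) = g ∘ x0 from rfl, MvPolynomial.eval₂_comp]
    rw [h4]
    exact hg0 _ h1
  let Φ : MvPolynomial (Fin m × Fin 2) Ω := ∑ n : NN D, monomial (xp D n) (c n)
  have hΦ : Φ ≠ 0 := by
    intro h0
    apply hc
    have h4 : coeff (xp D n₀) Φ = c n₀ := by
      simp only [Φ]
      rw [coeff_sum, Finset.sum_eq_single n₀]
      · rw [coeff_monomial, if_pos rfl]
      · intro n _ hn
        rw [coeff_monomial, if_neg]
        intro h
        exact hn (xp_inj D h)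
      · intro h
        exact absurd (Finset.mem_univ _) h
    rw [← h4, h0, coeff_zero]
  have hinf : Infinite Ω := inferInstance
  obtain ⟨v, hv, hne⟩ := hG Ω (Fin m × Fin 2)
    (fun t => if t.2 = 0 then {v | v.1 = v.2} else
      Sp (g (a 1)) (g (b 1)) h0 (p t.1) (q t.1) (o t.1))
    (fun t Z hZ => by
      by_cases ht : t.2 = 0
      · simp only [ht, if_true]
        obtain ⟨y, hy⟩ := hZ.exists_notMem
        exact ⟨(y, y), rfl, hy, hy⟩
      · simp only [ht, if_false]
        obtain ⟨v, hv, hv1, hv2⟩ := avoid (g (a 1)) (g (b 1)) (g (x0 1)) h0 (p t.1) (q t.1)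
          (o t.1) (hq t.1) (ho t.1) hh0 hf (hoq t.1) Z hZ
        exact ⟨v, hv, hv1, hv2⟩) Φ hΦ
  have hv0 : ∀ i : Fin m, (v (i, 0)).1 = (v (i, 0)).2 := fun i => by
    have := hv (i, 0)
    simpa using this
  have hv1' : ∀ i : Fin m, v (i, 1) ∈ Sp (g (a 1)) (g (b 1)) h0 (p i) (q i) (o i) := fun i => by
    have := hv (i, 1)
    simpa using this
  choose x h hx hA hv1 hv2 using hv1'
  have hgz : g (x0 0) ≠ 0 := hg0 _ hz
  let xx : Ix m → Ω := fun s => s.1.elim (g (x0 s.2)) (fun i => if s.2 = 0 then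
    (v (i, 0)).1 / g (x0 0) ^ (4 ^ k i) else x i)
  let hh : Ix m → Ω := fun s => s.1.elim (if s.2 = 0 then 0 else h0) (fun i => if s.2 = 0 then 0
    else h i)
  have ex0 : ∀ j, xx (none, j) = g (x0 j) := fun _ => rfl
  have ex1 : ∀ i, xx (some i, 0) = (v (i, 0)).1 / g (x0 0) ^ (4 ^ k i) := fun _ => rfl
  have ex2 : ∀ i, xx (some i, 1) = x i := fun _ => rfl
  have eh0 : hh (none, 1) = h0 := rfl
  have eh2 : ∀ i, hh (some i, 1) = h i := fun _ => rfl
  refine ⟨Ω, inferInstance, g, xx, hh, ?_, ?_⟩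
  · rintro (_ | i)
    · exact hh0
    · exact hx i
  · intro ε
    have hrv : ∀ (i : Fin m) (n : ℕ), n ≤ D i →
        rv a b D k g xx (sg1 hh ε) true i 1 n =
        ((x i * q i - p i) ^ 2) ^ D i *
          (if ε i then (v (i, 1)).1 else (v (i, 1)).2) ^ n := by
      intro i n hn
      unfold rv
      simp only [if_true, sg1, ex0, ex2, eh0, eh2]
      have e1 : ((x i * q i - p i) ^ 2) ^ D i =
          ((x i * q i - p i) ^ 2) ^ n *
            ((x i * q i - p i) ^ 2) ^ (D i - n) := by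
        rw [← pow_add, Nat.add_sub_cancel' hn]
      rw [e1]
      have e2 : ∀ V T : Ω, T = V * (x i * q i - p i) ^ 2 →
          T ^ n * ((x i * q i - p i) ^ 2) ^ (D i - n) =
          ((x i * q i - p i) ^ 2) ^ n *
            ((x i * q i - p i) ^ 2) ^ (D i - n) * V ^ n := by
        intro V T hT
        rw [hT, mul_pow]
        ring
      apply e2
      cases hε : ε i
      · simp only [Bool.false_eq_true, if_false]
        have := hv2 i
        simp only [p, q, o] at this ⊢
        rw [← this]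
        ring
      · simp only [if_true]
        have := hv1 i
        simp only [p, q, o] at this ⊢
        rw [← this]
    have hval : Vm a b D k g xx (sg1 hh ε) (fun _ => true) F =
        (∏ i, ((x i * q i - p i) ^ 2) ^ D i) *
          eval (fun t => if (if t.2 = 0 then true else ε t.1) then (v t).1 else (v t).2) Φ := by
      unfold Vm
      simp only [Φ]
      rw [map_sum, Finset.mul_sum]
      refine Finset.sum_congr rfl (fun n _ => ?_)
      rw [eval_monomial, Finsupp.prod_fintype _ _ (fun _ => pow_zero _), Fintype.prod_prod_type]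
      have e3 : ∏ i, ((xx (some i, 0) * xx (none, 0) ^ (4 ^ k i)) ^ (n i 0 : ℕ) *
          rv a b D k g xx (sg1 hh ε) true i 1 (n i 1)) =
          (∏ i, ((x i * q i - p i) ^ 2) ^ D i) *
          ∏ i, ∏ j : Fin 2, (if (if j = 0 then true else ε i) then (v (i, j)).1
            else (v (i, j)).2) ^ (n i j : ℕ) := by
        rw [← Finset.prod_mul_distrib]
        refine Finset.prod_congr rfl (fun i _ => ?_)
        rw [hrv i _ (Fin.is_le _), Fin.prod_univ_two, ex1, ex0,
          div_mul_cancel₀ _ (pow_ne_zero _ hgz)]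
        simp only [if_true, one_ne_zero, if_false]
        ring
      rw [e3]
      simp only [ex0, xp_apply, c]
      ring
    rw [hval]
    refine mul_ne_zero (Finset.prod_ne_zero_iff.2 (fun i _ => pow_ne_zero _ (hA i))) ?_
    exact hne (fun t => if t.2 = 0 then true else ε t.1)

end Pool.Agent.J4H55.GE
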